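import Pool.Agent.Helper73.OB.GoalsA
import Pool.Agent.Helper73.OB.GoalsB

/-!
Project OB, packet MATCH: the four matchings.
-/

open MeasureTheory ProbabilityTheory
open scoped ENNReal

namespace Pool.Agent.Helper31.OB

open Pool.Agent.Helper73.OB

/-- The runs are measurable with respect to the σ-algebra of the field. -/
theorem meas_letter {S X L : Type} [MeasurableSpace L] {β : S → S}
    {f : S → X → X} (hf : ∀ s x, f (β s) (f s x) = x) (s : X → L) (a : S) :
    @Measurable X X (sig f s {w | Red β w}) (sig f s {w | Red β w}) (f a) := by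
  rw [measurable_iff_comap_le, MeasurableSpace.comap_iSup]
  refine iSup_le fun w => ?_
  rw [MeasurableSpace.comap_iSup]
  refine iSup_le fun hw => ?_
  rw [MeasurableSpace.comap_comp]
  have h1 : (fun x => s (run f w x)) ∘ f a = fun x => s (run f (ls β a w) x) := by
    funext x
    simp only [Function.comp_apply, run_ls hf]
  rw [h1]
  exact le_iSup₂_of_le (ls β a w) (Red.ls hw a) le_rfl

theorem run_meas {S X : Type} [MeasurableSpace X] {f : S → X → X} (hf : ∀ a, Measurable (f a))
    (w : List S) : Measurable (run f w) := by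
  induction w with
  | nil => exact measurable_id
  | cons a w ih => exact ih.comp (hf a)

theorem sig_le {S X L : Type} [mX : MeasurableSpace X] [MeasurableSpace L]
    {f : S → X → X} (hf : ∀ a, Measurable (f a)) {s : X → L} (hs : Measurable s)
    (Q : Set (List S)) : sig f s Q ≤ mX := by
  refine iSup₂_le fun w _ => ?_
  rw [← measurable_iff_comap_le]
  exact hs.comp (run_meas hf w)

theorem sig_meas {S X L : Type} [MeasurableSpace L] (f : S → X → X) (s : X → L)
    {Q : Set (List S)} (hQ : [] ∈ Q) : Measurable[sig f s Q] s := by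
  rw [measurable_iff_comap_le]
  exact le_iSup₂_of_le (f := fun (w : List S) (_ : w ∈ Q) => MeasurableSpace.comap
        (fun x => s (run f w x)) inferInstance) [] hQ le_rfl

theorem bit_aux (u z : Bit) : u + (u + z) = z := by
  revert u z; decide

theorem hset (d t r : Bit) : MeasurableSet {y : Sk | y.1 = true ∧ y.2.1 d t = r} := by
  have m1 : Measurable fun y : Sk => y.1 := measurable_fst
  have m2 : Measurable fun y : Sk => y.2.1 d t :=
    (measurable_pi_apply t).comp ((measurable_pi_apply d).comp (measurable_fst.comp measurable_snd))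
  exact (m1 (measurableSet_singleton true)).inter (m2 (measurableSet_singleton r))

theorem match_ (h1 : S_SUB) (h2 : S_MIX) (h3 : S_GREEDY) (h4 : S_PRB) : S_MATCH := by
  classical
  intro S _ β p δ hfr hab e X mX μ _ f hsys s hTM z c
  have hprb := h4.2 e
  obtain ⟨-, hkp, -, -, -, -, -, -, -, -, hhalf, hbits⟩ := hprb
  -- the involution of the H-letters
  have hβp : ∀ a, a ∉ Set.range p → β a ∉ Set.range p := by
    rintro a ha ⟨y, hy⟩
    apply ha
    refine ⟨y + 1 + δ, ?_⟩
    rw [← hfr.bp, hy, hfr.inv]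
  let β' : {a : S // a ∉ Set.range p} → {a : S // a ∉ Set.range p} :=
    fun a => ⟨β a.1, hβp a.1 a.2⟩
  have hβ' : ∀ a, (β' a).1 = β a.1 := fun a => rfl
  have hinv' : ∀ a, β' (β' a) = a := fun a => Subtype.ext (hfr.inv a.1)
  obtain ⟨hS', hB', hrun, hsig⟩ := h1 S β p δ hfr e X μ f hsys s hTM β' hβ'
  have hab' : ∃ a b : {a : S // a ∉ Set.range p}, a ≠ b := by
    obtain ⟨a, b, hne, ha, hb⟩ := hab
    exact ⟨⟨a, ha⟩, ⟨b, hb⟩, fun h => hne (congrArg Subtype.val h)⟩
  have hmix := h2 {a : S // a ∉ Set.range p} β' hinv' hab' X μ (fun a => f a.1) hS' Sk (kap e) s hB'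
  -- the law of s
  have hlaw : μ.map s = kap e := by
    have hev := (measurePreserving_eval_infinitePi (fun _ : HW β p => kap e)
      ⟨[], List.isChain_nil, fun a ha => absurd ha (List.not_mem_nil)⟩).comp hTM.cos
    exact hev.map_eq
  have hsm : Measurable s := hTM.meas
  have hmp : MeasurePreserving s μ (kap e) := ⟨hsm, hlaw⟩
  have hbX : ∀ᵐ x ∂μ, (s x).1 = false → ∀ d z, (s x).2.1 d z = (s x).2.1 0 0 + z :=
    hmp.quasiMeasurePreserving.ae hbits
  have hfm : ∀ a, Measurable (f a) := fun a => (hsys.mp a).measurable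
  let A : Set X := {x | (s x).1 = true ∧ (s x).2.1 0 z = c}
  let B : Set X := {x | (s x).1 = true ∧ (s x).2.1 1 c = z}
  have hA : MeasurableSet[sig (fun a : {a : S // a ∉ Set.range p} => f a.1) s {w | Red β' w}] A :=
    sig_meas _ s List.isChain_nil (hset 0 z c)
  have hB : MeasurableSet[sig (fun a : {a : S // a ∉ Set.range p} => f a.1) s {w | Red β' w}] B :=
    sig_meas _ s List.isChain_nil (hset 1 c z)
  have hAB : μ A = μ B := by
    have e1 : μ A = kap e {y : Sk | y.1 = true ∧ y.2.1 0 z = c} := by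
      rw [← hmp.measure_preimage (hset 0 z c).nullMeasurableSet]; rfl
    have e2 : μ B = kap e {y : Sk | y.1 = true ∧ y.2.1 1 c = z} := by
      rw [← hmp.measure_preimage (hset 1 c z).nullMeasurableSet]; rfl
    rw [e1, e2, hhalf, hhalf]
  have hle : sig (fun a : {a : S // a ∉ Set.range p} => f a.1) s {w | Red β' w} ≤ mX :=
    @sig_le {a : S // a ∉ Set.range p} X Sk mX _ (fun a => f a.1) (fun a => hfm a.1) s hsm
      {w | Red β' w}
  have hml : ∀ a : {a : S // a ∉ Set.range p},
      @Measurable X X (sig (fun a : {a : S // a ∉ Set.range p} => f a.1) s {w | Red β' w})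
        (sig (fun a : {a : S // a ∉ Set.range p} => f a.1) s {w | Red β' w}) (f a.1) := by
    intro a
    exact @meas_letter {a : S // a ∉ Set.range p} X Sk _ β' (fun a => f a.1)
      (fun s x => hsys.inv s.1 x) s a
  have hgr := h3 {a : S // a ∉ Set.range p} β' hinv' X μ (fun a => f a.1) hS'
    (sig (fun a : {a : S // a ∉ Set.range p} => f a.1) s {w | Red β' w}) hle hml hmix A B hA hB hAB
  obtain ⟨K, K', hKm, hK'm, hKr, hK'r, hKA, hK'B, hKB, hK'A, htail⟩ := hgr
  have hval : ∀ w : List {a : S // a ∉ Set.range p}, IsH p (w.map Subtype.val) := by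
    intro w a ha
    obtain ⟨b, -, rfl⟩ := List.mem_map.1 ha
    exact b.2
  have hinvw : ∀ w : List {a : S // a ∉ Set.range p},
      (invw β' w).map Subtype.val = invw β (w.map Subtype.val) := by
    intro w
    unfold invw
    rw [List.map_reverse, List.map_map, List.map_map]
    rfl
  have hlift : ∀ h : List S, IsH p h → ∃ h' : List {a : S // a ∉ Set.range p},
      h'.map Subtype.val = h := by
    intro h hh
    lift h to List {a : S // a ∉ Set.range p} using hh
    exact ⟨h, rfl⟩
  refine ⟨fun x => (K x).map Subtype.val, fun x => (K' x).map Subtype.val, ?_, ?_, ?_, ?_, ?_, ?_,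
    ?_, ?_, ?_⟩
  · rw [← hsig]
    exact @Measurable.comp X _ _ _ ⊤ ⊤ _ _ (@measurable_from_top _ _ ⊤ _) hKm
  · rw [← hsig]
    exact @Measurable.comp X _ _ _ ⊤ ⊤ _ _ (@measurable_from_top _ _ ⊤ _) hK'm
  · exact fun x => ⟨((hrun (K x)).1).1 (hKr x), hval _⟩
  · exact fun x => ⟨((hrun (K' x)).1).1 (hK'r x), hval _⟩
  · intro x hx
    have : x ∉ A := fun h => by rw [h.1] at hx; exact Bool.noConfusion hx
    simp [hKA x this]
  · intro x hx
    have : x ∉ B := fun h => by rw [h.1] at hx; exact Bool.noConfusion hx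
    simp [hK'B x this]
  · filter_upwards [hKB, hbX] with x hx hbx hxc
    cases hM : (s x).1
    · have hxA : x ∉ A := fun h => by rw [h.1] at hM; exact Bool.noConfusion hM
      have hxB : x ∉ B := fun h => by rw [h.1] at hM; exact Bool.noConfusion hM
      rw [hKA x hxA]
      simp only [List.map_nil, run_nil]
      rw [hK'B x hxB]
      refine ⟨?_, rfl⟩
      have b1 := hbx hM 0 z
      have b2 := hbx hM 1 c
      rw [b2, ← hxc, b1]
      exact bit_aux _ _
    · obtain ⟨q1, q2⟩ := hx ⟨hM, hxc⟩
      rw [(hrun (K x)).2 x] at q1 q2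
      refine ⟨q1.2, ?_⟩
      rw [q2, hinvw]
  · filter_upwards [hK'A, hbX] with x hx hbx hxc
    cases hM : (s x).1
    · have hxA : x ∉ A := fun h => by rw [h.1] at hM; exact Bool.noConfusion hM
      have hxB : x ∉ B := fun h => by rw [h.1] at hM; exact Bool.noConfusion hM
      rw [hK'B x hxB]
      simp only [List.map_nil, run_nil]
      rw [hKA x hxA]
      refine ⟨?_, rfl⟩
      have b1 := hbx hM 0 z
      have b2 := hbx hM 1 c
      rw [b1, ← hxc, b2]
      exact bit_aux _ _
    · obtain ⟨q1, q2⟩ := hx ⟨hM, hxc⟩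
      rw [(hrun (K' x)).2 x] at q1 q2
      refine ⟨q1.2, ?_⟩
      rw [q2, hinvw]
  · intro n
    obtain ⟨A', B', hA', hB', hAB', t1, t2, t3⟩ := htail n
    rw [← hsig]
    refine ⟨A', B', hA', hB', hAB', ?_, ?_, ?_⟩
    · intro x hx
      apply t1
      simpa using hx
    · intro x hx
      apply t2
      simpa using hx
    · intro h hred hhH hlen
      obtain ⟨h', rfl⟩ := hlift h hhH
      have := t3 h' (((hrun h').1).2 hred) (by simpa using hlen)
      have hr : run (fun a : {a : S // a ∉ Set.range p} => f a.1) h' =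
          run f (h'.map Subtype.val) := funext fun x => (hrun h').2 x
      rw [hr] at this
      exact this

end Pool.Agent.Helper31.OB
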